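import Mathlib

namespace Pool.Agent.Results.MP_2a6a08_co.Asymp
open Finset

/-- `x 0, …, x (n-1)` is an elementary sequence of length `n ≥ 2`. -/
def Elem (n : ℕ) (x : ℕ → ℕ) : Prop :=
  2 ≤ n ∧ x 0 = 1 ∧ x 1 = 1 ∧ (∀ i, i + 1 < n → x i ≤ x (i + 1)) ∧
    ∀ i < n, 1 < x i → ∃ j < n, ∃ k < n, j ≠ k ∧ x i = x j + x k

/-- `e(k)`: the least length of an elementary sequence containing `k`. -/
noncomputable def e (k : ℕ) : ℕ := sInf {n | ∃ x, Elem n x ∧ ∃ i < n, x i = k}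

def Good (C : ℕ) (T : Finset ℕ) : Prop :=
  range (C + 1) ⊆ T ∧ ∀ x ∈ T, 2 < x → ∃ y ∈ T, ∃ z ∈ T, 0 < y ∧ y < z ∧ x = y + z

lemma e_le {C : ℕ} (hC : 1 ≤ C) {T : Finset ℕ} (hT : Good C T) {k : ℕ} (hk : k ∈ T) (h2 : 2 ≤ k) :
    e k ≤ T.card := by
  classical
  have h0 : 0 ∈ T := hT.1 (by simp)
  have h1 : 1 ∈ T := hT.1 (by simp; omega)
  have hc : ∀ hf : (Set.ofPred fun a => a ∈ T).Finite, hf.toFinset.card = T.card := by
    intro hf; congr 1; ext; simp
  have hmono : ∀ i j, i < j → j < T.card → Nat.nth (· ∈ T) i < Nat.nth (· ∈ T) j :=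
    fun i j hij hj => Nat.nth_lt_nth' hij fun hf => by rw [hc]; exact hj
  have hmem : ∀ i < T.card, Nat.nth (· ∈ T) i ∈ T :=
    fun i hi => Nat.nth_mem i fun hf => by rw [hc]; exact hi
  have hsurj : ∀ y ∈ T, ∃ j < T.card, Nat.nth (· ∈ T) j = y := by
    intro y hy
    refine ⟨Nat.count (· ∈ T) y, ?_, Nat.nth_count hy⟩
    have := Nat.count_lt_card (p := (· ∈ T)) T.finite_toSet hy
    rwa [hc] at this
  have n0 : Nat.nth (· ∈ T) 0 = 0 := Nat.nth_zero_of_zero h0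
  have c2 : 2 ≤ T.card := one_lt_card.2 ⟨0, h0, 1, h1, by omega⟩
  have n1 : Nat.nth (· ∈ T) 1 = 1 := by
    obtain ⟨j, hj, e⟩ := hsurj 1 h1
    have := hmono 0 1 (by omega) (by omega)
    rcases (show j = 0 ∨ j = 1 ∨ 1 < j by omega) with rfl | rfl | h
    · omega
    · exact e
    · have := hmono 1 j h hj; omega
  refine Nat.sInf_le ⟨fun i => max 1 (Nat.nth (· ∈ T) i), ⟨c2, by simp [n0], by simp [n1],
    fun i hi => ?_, fun i hi hx => ?_⟩, ?_⟩
  · have := hmono i (i + 1) (by omega) hi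
    simp only; omega
  · simp only at hx ⊢
    by_cases h : Nat.nth (· ∈ T) i = 2
    · exact ⟨0, by omega, 1, by omega, by omega, by rw [h, n0, n1]; rfl⟩
    · obtain ⟨y, hy, z, hz, h3, h4, h5⟩ := hT.2 _ (hmem i hi) (by omega)
      obtain ⟨a, ha, ea⟩ := hsurj y hy
      obtain ⟨b, hb, eb⟩ := hsurj z hz
      exact ⟨a, ha, b, hb, by rintro rfl; omega, by omega⟩
  · obtain ⟨a, ha, ea⟩ := hsurj k hk
    exact ⟨a, ha, by simp only; omega⟩

lemma ins {C : ℕ} {T : Finset ℕ} (hT : Good C T) {y z : ℕ} (hy : y ∈ T) (hz : z ∈ T)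
    (h : y = z → y + z ≤ C) : ∃ T', Good C T' ∧ T ⊆ T' ∧ y + z ∈ T' ∧ T'.card ≤ T.card + 1 := by
  by_cases hm : y + z ∈ T
  · exact ⟨T, hT, Subset.rfl, hm, by omega⟩
  refine ⟨insert (y + z) T, ⟨hT.1.trans (subset_insert _ _), fun x hx h2 => ?_⟩,
    subset_insert _ _, mem_insert_self _ _, card_insert_le _ _⟩
  rcases mem_insert.1 hx with rfl | hx
  · have a1 : y ≠ 0 := by rintro rfl; exact hm (by simpa using hz)
    have a2 : z ≠ 0 := by rintro rfl; exact hm (by simpa using hy)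
    have a3 : y ≠ z := fun e => hm (hT.1 (mem_range.2 (by have := h e; omega)))
    rcases lt_or_gt_of_ne a3 with h' | h'
    · exact ⟨y, mem_insert_of_mem hy, z, mem_insert_of_mem hz, by omega, h', rfl⟩
    · exact ⟨z, mem_insert_of_mem hz, y, mem_insert_of_mem hy, by omega, h', by omega⟩
  · obtain ⟨a, ha, b, hb, h⟩ := hT.2 x hx h2
    exact ⟨a, mem_insert_of_mem ha, b, mem_insert_of_mem hb, h⟩

def G (w m : ℕ) (c : ℕ → ℕ) (t : ℕ) : ℕ := ∑ i ∈ range m, c i * Nat.fib (i * w + t)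

lemma G_rec (w m : ℕ) (c : ℕ → ℕ) (t : ℕ) : G w m c (t + 2) = G w m c t + G w m c (t + 1) := by
  simp only [G, ← sum_add_distrib, ← add_assoc, Nat.fib_add_two, mul_add]

lemma G_pos (w m : ℕ) (c : ℕ → ℕ) (t : ℕ) : G w m c (t + 2) ≤ 2 * G w m c (t + 1) := by
  simp only [G, mul_sum]
  refine sum_le_sum fun i _ => ?_
  have h1 : Nat.fib (i * w + (t + 2)) = Nat.fib (i * w + t) + Nat.fib (i * w + t + 1) :=
    Nat.fib_add_two
  have h2 : Nat.fib (i * w + t) ≤ Nat.fib (i * w + t + 1) := Nat.fib_le_fib_succ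
  rw [h1, ← add_assoc]; nlinarith

lemma horner (w D : ℕ) : ∀ (m : ℕ) (c : ℕ → ℕ), (∀ i, c i ≤ D) →
    ∃ T, Good (4 * D) T ∧ G w m c 2 ∈ T ∧ G w m c 3 ∈ T ∧ T.card ≤ 4 * D + 1 + m * (w + 2) := by
  intro m
  induction m with
  | zero =>
    intro c _
    refine ⟨range (4 * D + 1), ⟨Subset.rfl, fun x hx h2 => ?_⟩, by simp [G], by simp [G], by simp⟩
    rw [mem_range] at hx
    exact ⟨1, mem_range.2 (by omega), x - 1, mem_range.2 (by omega), by omega, by omega, by omega⟩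
  | succ m ih =>
    intro c hc
    obtain ⟨T, hT, h2, h3, hcard⟩ := ih (fun i => c (i + 1)) fun i => hc _
    have step : ∀ s, ∃ T', Good (4 * D) T' ∧ G w m (fun i => c (i + 1)) (s + 2) ∈ T' ∧
        G w m (fun i => c (i + 1)) (s + 3) ∈ T' ∧ T'.card ≤ T.card + s := by
      intro s
      induction s with
      | zero => exact ⟨T, hT, h2, h3, le_rfl⟩
      | succ s ih2 =>
        obtain ⟨T', a1, a2, a3, a4⟩ := ih2
        have r1 := G_rec w m (fun i => c (i + 1)) (s + 1)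
        have r2 := G_rec w m (fun i => c (i + 1)) (s + 2)
        have r3 := G_pos w m (fun i => c (i + 1)) s
        simp only [add_assoc, Nat.reduceAdd] at r1 r2 r3 ⊢
        obtain ⟨T2, b1, b2, b3, b4⟩ := ins a1 a2 a3 (by omega)
        exact ⟨T2, b1, b2 a3, r2 ▸ b3, by omega⟩
    obtain ⟨T1, a1, a2, a3, a4⟩ := step w
    have hG : ∀ t, G w (m + 1) c t = G w m (fun i => c (i + 1)) (w + t) + c 0 * Nat.fib t := by
      intro t
      simp only [G, sum_range_succ', zero_mul, zero_add, add_mul, one_mul, add_assoc]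
    have hc0 := hc 0
    obtain ⟨T2, b1, b2, b3, b4⟩ := ins a1 a2 (z := c 0) (a1.1 (mem_range.2 (by omega))) (by omega)
    obtain ⟨T3, d1, d2, d3, d4⟩ := ins b1 (b2 a3) (z := c 0 * 2) (b1.1 (mem_range.2 (by omega)))
      (by omega)
    refine ⟨T3, d1, ?_, ?_, ?_⟩
    · rw [hG, show Nat.fib 2 = 1 from rfl, mul_one]; exact d2 b3
    · rw [hG, show Nat.fib 3 = 2 from rfl]; exact d3
    · rw [add_mul, one_mul]; omega

lemma fib_le (s w : ℕ) : Nat.fib (s + 1 + w) ≤ 2 ^ w * Nat.fib (s + 1) := by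
  induction w with
  | zero => simp
  | succ w ih =>
    have h1 : Nat.fib (s + 1 + (w + 1)) = Nat.fib (s + w) + Nat.fib (s + w + 1) := by
      rw [← Nat.fib_add_two]; congr 1; omega
    have h2 : Nat.fib (s + w) ≤ Nat.fib (s + w + 1) := Nat.fib_le_fib_succ
    rw [show s + 1 + w = s + w + 1 by omega] at ih
    rw [h1, pow_succ]; nlinarith

lemma digits (w : ℕ) : ∀ m k : ℕ, k < Nat.fib (m * w + 2) →
    ∃ c : ℕ → ℕ, (∀ i, c i ≤ 2 ^ w) ∧ G w m c 2 = k := by
  intro m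
  induction m with
  | zero => intro k hk; exact ⟨fun _ => 0, by simp, by simp [G] at hk ⊢; omega⟩
  | succ m ih =>
    intro k hk
    have hp : 0 < Nat.fib (m * w + 2) := Nat.fib_pos.2 (by omega)
    obtain ⟨c, h1, h2⟩ := ih (k % Nat.fib (m * w + 2)) (Nat.mod_lt _ hp)
    refine ⟨Function.update c m (k / Nat.fib (m * w + 2)), fun i => ?_, ?_⟩
    · by_cases h : i = m
      · rw [h, Function.update_self]
        have := fib_le (m * w + 1) w
        rw [show m * w + 1 + 1 + w = (m + 1) * w + 2 by ring] at this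
        exact Nat.div_le_of_le_mul (by rw [mul_comm]; exact hk.le.trans this)
      · rw [Function.update_of_ne h]; exact h1 i
    · rw [G, sum_range_succ, Function.update_self, sum_congr rfl fun i hi => by
        rw [Function.update_of_ne (mem_range.1 hi).ne]]
      have := Nat.mod_add_div' k (Nat.fib (m * w + 2))
      rw [G] at h2; omega

theorem result (w n k : ℕ) (hw : 1 ≤ w) (h2 : 2 ≤ k) (hk : k < Nat.fib (n + 1)) :
    e k ≤ n + 2 * (n / w) + (2 ^ (w + 2) + w + 3) := by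
  have hd := Nat.div_add_mod' n w
  have hm := Nat.mod_lt n (show 0 < w by omega)
  obtain ⟨c, h1, h3⟩ := digits w (n / w + 1) k
    (hk.trans_le (Nat.fib_mono (by rw [add_mul, one_mul]; omega)))
  obtain ⟨T, hT, a, -, b⟩ := horner w (2 ^ w) (n / w + 1) c h1
  have hp : 0 < 2 ^ w := by positivity
  have := e_le (by omega) hT (h3 ▸ a) h2
  rw [add_mul, mul_add, one_mul] at b
  rw [pow_add]; omega

end Pool.Agent.Results.MP_2a6a08_co.Asymp
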